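import Pool.Agent.helper55.BL.Spec

set_option autoImplicit false

namespace Pool.Agent.helper55.BL

open Finset
open scoped Classical
open Pool.Agent.helper61.BM (Clo dg)

/-- image of a closed path under an injective map which reflects adjacency -/
theorem CYM_map {V W : Type} (G : SimpleGraph V) (f : W → V) (hf : Function.Injective f)
    (l : List W) (h : Clo (G.comap f) l) : Clo G (l.map f) := by
  obtain ⟨h1, h2, h3⟩ := h
  refine ⟨h1.map hf, ?_, ?_⟩
  · rw [List.isChain_map]
    exact h2
  · intro x hx y hy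
    rw [List.head?_map, Option.mem_def, Option.map_eq_some_iff] at hx
    rw [List.getLast?_map, Option.mem_def, Option.map_eq_some_iff] at hy
    obtain ⟨a, ha, rfl⟩ := hx
    obtain ⟨b, hb, rfl⟩ := hy
    exact h3 a ha b hb

theorem CYM (hDIR : DIR_stmt) (hSTW : STW_stmt) (hSTD : STD_stmt) : CYM_stmt := by
  intro V _ G A S F k hG hk hF hd hc
  have h1 : Two (G.comap (Subtype.val : ↥(S ∪ F.biUnion id) → V)) :=
    hSTW V G A S F hG (fun E hE => ⟨(hF E hE).1, (hF E hE).2.1⟩) hd (by omega)
  obtain ⟨h2, h3⟩ := hSTD V G A S F k hF hd hc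
  obtain ⟨l, hl, hl2⟩ := hDIR _ (G.comap (Subtype.val : ↥(S ∪ F.biUnion id) → V)) k h1 hk h2 h3
  exact ⟨l.map Subtype.val, CYM_map G _ Subtype.val_injective l hl, by rw [List.length_map]; exact hl2⟩

end Pool.Agent.helper55.BL
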